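import Mathlib
import Pool.Agent.H92.EH.Exp

/-!
The dual form of the additive large sieve inequality for well spaced points.
-/

set_option autoImplicit false

namespace Pool.Agent.H92.EH

open Finset

/-- The Dirichlet kernel. -/
noncomputable def D (M : ℕ) (t : ℝ) : ℂ := ∑ m ∈ range M, e (m * t)

theorem norm_D_le_nat (M : ℕ) (t : ℝ) : ‖D M t‖ ≤ M := by
  unfold D
  refine (norm_sum_le _ _).trans ?_
  simp [norm_e]

theorem norm_D_neg (M : ℕ) (t : ℝ) : ‖D M (-t)‖ = ‖D M t‖ := by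
  have : D M (-t) = (starRingEnd ℂ) (D M t) := by
    unfold D
    rw [map_sum]
    refine sum_congr rfl fun m _ => ?_
    rw [← e_neg]
    congr 1
    ring
  rw [this]
  simp

theorem norm_D_le (M : ℕ) {t δ : ℝ} (hδ : 0 < δ) (h : ∀ m : ℤ, δ ≤ |t - m|) :
    ‖D M t‖ ≤ 1 / (2 * δ) := by
  have h1 : D M t * (e t - 1) = e t ^ M - 1 := by
    unfold D
    rw [← geom_sum_mul]
    congr 1
    refine sum_congr rfl fun m _ => ?_
    rw [e_nat_mul]
  have h2 : ‖e t ^ M - 1‖ ≤ 2 := by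
    refine (norm_sub_le _ _).trans ?_
    rw [norm_pow, norm_e, one_pow, norm_one]
    norm_num
  have h3 := le_norm_e_sub_one h
  have h4 : ‖D M t‖ * ‖e t - 1‖ ≤ 2 := by rw [← norm_mul, h1]; exact h2
  rw [le_div_iff₀ (by positivity)]
  have h5 : ‖D M t‖ * (4 * δ) ≤ 2 := (mul_le_mul_of_nonneg_left h3 (norm_nonneg _)).trans h4
  linarith

/-- Sum of inverse squares over distinct positive integers. -/
theorem sum_inv_sq_le {ι : Type*} (S : Finset ι) (m : ι → ℕ) (hm : ∀ j ∈ S, 1 ≤ m j)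
    (hinj : Set.InjOn m S) : ∑ j ∈ S, ((m j : ℝ) ^ 2)⁻¹ ≤ 2 := by
  classical
  rw [← sum_image (f := fun k : ℕ => ((k : ℝ) ^ 2)⁻¹) (g := m) hinj]
  have hsub : S.image m ⊆ Ioo 0 ((S.image m).sup id + 1) := by
    intro k hk
    rw [mem_Ioo]
    refine ⟨?_, Nat.lt_succ_of_le (le_sup (f := id) hk)⟩
    obtain ⟨j, hj, rfl⟩ := mem_image.mp hk
    exact hm j hj
  refine (sum_le_sum_of_subset_of_nonneg hsub ?_).trans ?_
  · intro i _ _
    positivity
  · have := sum_Ioo_inv_sq_le (α := ℝ) 0 ((S.image m).sup id + 1)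
    simpa using this

/-- One sided estimate used for the row sums. -/
theorem row_aux {ι : Type*} (S : Finset ι) (β : ι → ℝ) (M : ℕ) (hM : 0 < M)
    (h0 : ∀ j ∈ S, ∀ m : ℤ, (1 : ℝ) / M ≤ |β j - m|)
    (hsp : ∀ i ∈ S, ∀ j ∈ S, i ≠ j → ∀ m : ℤ, (1 : ℝ) / M ≤ |β i - β j - m|)
    (hhalf : ∀ j ∈ S, Int.fract (β j) ≤ 1 / 2) (K : ℕ) :
    ∑ j ∈ S, ‖D K (β j)‖ ^ 2 ≤ (M : ℝ) ^ 2 / 2 := by
  have hM' : (0 : ℝ) < M := by exact_mod_cast hM
  set m : ι → ℕ := fun j => ⌊(M : ℝ) * Int.fract (β j)⌋₊ with hmdef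
  have hfr : ∀ j ∈ S, (1 : ℝ) / M ≤ Int.fract (β j) := by
    intro j hj
    have := h0 j hj ⌊β j⌋
    rwa [show β j - (⌊β j⌋ : ℤ) = Int.fract (β j) from rfl, abs_of_nonneg (Int.fract_nonneg _)]
      at this
  have hm1 : ∀ j ∈ S, 1 ≤ m j := by
    intro j hj
    rw [hmdef]
    apply Nat.le_floor
    have := hfr j hj
    rw [div_le_iff₀ hM'] at this
    push_cast
    linarith
  have hmle : ∀ j ∈ S, (m j : ℝ) ≤ M * Int.fract (β j) := by
    intro j _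
    exact Nat.floor_le (by have := Int.fract_nonneg (β j); positivity)
  have hmlt : ∀ j ∈ S, (M : ℝ) * Int.fract (β j) < m j + 1 := by
    intro j _
    exact Nat.lt_floor_add_one _
  have hinj : Set.InjOn m S := by
    intro i hi j hj hij
    by_contra hne
    have h1 := hmle i hi
    have h2 := hmlt i hi
    have h3 := hmle j hj
    have h4 := hmlt j hj
    have h5 : (m i : ℝ) = m j := by exact_mod_cast hij
    have h6 := hsp i hi j hj hne (⌊β i⌋ - ⌊β j⌋)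
    have h7 : β i - β j - ((⌊β i⌋ - ⌊β j⌋ : ℤ) : ℝ) = Int.fract (β i) - Int.fract (β j) := by
      simp only [Int.fract]
      push_cast
      ring
    rw [h7, div_le_iff₀ hM'] at h6
    have h8 : |Int.fract (β i) - Int.fract (β j)| * M < 1 := by
      rw [← abs_of_pos hM', ← abs_mul, abs_lt]
      constructor <;> nlinarith
    linarith
  have hbound : ∀ j ∈ S, ‖D K (β j)‖ ^ 2 ≤ (M : ℝ) ^ 2 / 4 * ((m j : ℝ) ^ 2)⁻¹ := by
    intro j hj
    have hmpos : (0 : ℝ) < m j := by exact_mod_cast hm1 j hj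
    have hdist : ∀ k : ℤ, (m j : ℝ) / M ≤ |β j - k| := by
      intro k
      have h1 : Int.fract (β j) ≤ |β j - k| := by
        have hf := hhalf j hj
        have hf0 := Int.fract_nonneg (β j)
        have hβ : β j = ⌊β j⌋ + Int.fract (β j) := (Int.floor_add_fract _).symm
        rcases le_or_gt k ⌊β j⌋ with hk | hk
        · have hk' : (k : ℝ) ≤ ⌊β j⌋ := by exact_mod_cast hk
          rw [le_abs]
          left
          linarith
        · have hk' : (⌊β j⌋ : ℝ) + 1 ≤ k := by exact_mod_cast hk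
          rw [le_abs]
          right
          linarith
      refine le_trans ?_ h1
      rw [div_le_iff₀ hM']
      have := hmle j hj
      linarith
    have h1 := norm_D_le K (t := β j) (δ := (m j : ℝ) / M) (by positivity) hdist
    have h2 : (1 : ℝ) / (2 * ((m j : ℝ) / M)) = M / (2 * m j) := by
      field_simp
    rw [h2] at h1
    calc ‖D K (β j)‖ ^ 2 ≤ (M / (2 * m j)) ^ 2 := pow_le_pow_left₀ (norm_nonneg _) h1 2
      _ = (M : ℝ) ^ 2 / 4 * ((m j : ℝ) ^ 2)⁻¹ := by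
        field_simp
        ring
  calc ∑ j ∈ S, ‖D K (β j)‖ ^ 2 ≤ ∑ j ∈ S, (M : ℝ) ^ 2 / 4 * ((m j : ℝ) ^ 2)⁻¹ :=
        sum_le_sum hbound
    _ = (M : ℝ) ^ 2 / 4 * ∑ j ∈ S, ((m j : ℝ) ^ 2)⁻¹ := by rw [mul_sum]
    _ ≤ (M : ℝ) ^ 2 / 4 * 2 := by
        apply mul_le_mul_of_nonneg_left (sum_inv_sq_le S m hm1 hinj)
        positivity
    _ = (M : ℝ) ^ 2 / 2 := by ring

/-- Row sums of the kernel. -/
theorem row_sum_le {ι : Type*} [DecidableEq ι] (J : Finset ι) (α : ι → ℝ) (M : ℕ) (hM : 0 < M)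
    (hsp : ∀ i ∈ J, ∀ j ∈ J, i ≠ j → ∀ m : ℤ, (1 : ℝ) / M ≤ |α i - α j - m|)
    (i : ι) (hi : i ∈ J) :
    ∑ j ∈ J, ‖D (2 * M) (α i - α j)‖ ^ 2 ≤ 5 * (M : ℝ) ^ 2 := by
  have hM' : (0 : ℝ) < M := by exact_mod_cast hM
  rw [← add_sum_erase J _ hi]
  have h1 : ‖D (2 * M) (α i - α i)‖ ^ 2 ≤ 4 * (M : ℝ) ^ 2 := by
    have := norm_D_le_nat (2 * M) (α i - α i)
    push_cast at this
    calc ‖D (2 * M) (α i - α i)‖ ^ 2 ≤ (2 * (M : ℝ)) ^ 2 :=
          pow_le_pow_left₀ (norm_nonneg _) this 2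
      _ = 4 * (M : ℝ) ^ 2 := by ring
  set S := J.erase i with hS
  have hSJ : ∀ j ∈ S, j ∈ J ∧ j ≠ i := by
    intro j hj
    rw [hS, mem_erase] at hj
    exact ⟨hj.2, hj.1⟩
  set S1 := S.filter (fun j => Int.fract (α i - α j) ≤ 1 / 2) with hS1
  set S2 := S.filter (fun j => ¬ Int.fract (α i - α j) ≤ 1 / 2) with hS2
  have hsplit : ∑ j ∈ S, ‖D (2 * M) (α i - α j)‖ ^ 2
      = ∑ j ∈ S1, ‖D (2 * M) (α i - α j)‖ ^ 2 + ∑ j ∈ S2, ‖D (2 * M) (α i - α j)‖ ^ 2 :=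
    (sum_filter_add_sum_filter_not S _ _).symm
  have hA : ∑ j ∈ S1, ‖D (2 * M) (α i - α j)‖ ^ 2 ≤ (M : ℝ) ^ 2 / 2 := by
    apply row_aux S1 (fun j => α i - α j) M hM
    · intro j hj m
      rw [hS1, mem_filter] at hj
      obtain ⟨hjJ, hne⟩ := hSJ j hj.1
      exact hsp i hi j hjJ (Ne.symm hne) m
    · intro j hj k hk hne m
      rw [hS1, mem_filter] at hj hk
      have := hsp k (hSJ k hk.1).1 j (hSJ j hj.1).1 (Ne.symm hne) m
      have heq : α i - α j - (α i - α k) - (m : ℝ) = α k - α j - m := by ring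
      show (1 : ℝ) / M ≤ |α i - α j - (α i - α k) - (m : ℝ)|
      rw [heq]
      exact this
    · intro j hj
      rw [hS1, mem_filter] at hj
      exact hj.2
  have hB : ∑ j ∈ S2, ‖D (2 * M) (α i - α j)‖ ^ 2 ≤ (M : ℝ) ^ 2 / 2 := by
    have : ∑ j ∈ S2, ‖D (2 * M) (α i - α j)‖ ^ 2 = ∑ j ∈ S2, ‖D (2 * M) (α j - α i)‖ ^ 2 := by
      refine sum_congr rfl fun j _ => ?_
      rw [← norm_D_neg, neg_sub]
    rw [this]
    apply row_aux S2 (fun j => α j - α i) M hM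
    · intro j hj m
      rw [hS2, mem_filter] at hj
      obtain ⟨hjJ, hne⟩ := hSJ j hj.1
      exact hsp j hjJ i hi hne m
    · intro j hj k hk hne m
      rw [hS2, mem_filter] at hj hk
      have := hsp j (hSJ j hj.1).1 k (hSJ k hk.1).1 hne m
      have heq : α j - α i - (α k - α i) - (m : ℝ) = α j - α k - m := by ring
      show (1 : ℝ) / M ≤ |α j - α i - (α k - α i) - (m : ℝ)|
      rw [heq]
      exact this
    · intro j hj
      rw [hS2, mem_filter] at hj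
      have h2 := hj.2
      push Not at h2
      have h3 : Int.fract (α j - α i) = 1 - Int.fract (α i - α j) := by
        rw [← neg_sub (α i) (α j)]
        apply Int.fract_neg
        intro h
        rw [h] at h2
        norm_num at h2
      show Int.fract (α j - α i) ≤ 1 / 2
      rw [h3]
      linarith
  rw [hsplit]
  linarith

/-- Dual form of the large sieve inequality. -/
theorem dual_large_sieve {ι : Type*} [DecidableEq ι] (J : Finset ι) (α : ι → ℝ) (c : ι → ℂ)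
    (M N : ℕ) (hN : N ≤ M) (hM : 0 < M)
    (hsp : ∀ i ∈ J, ∀ j ∈ J, i ≠ j → ∀ m : ℤ, (1 : ℝ) / M ≤ |α i - α j - m|) :
    ∑ n ∈ Icc 1 N, ‖∑ j ∈ J, c j * e (n * α j)‖ ^ 2 ≤ 5 * M * ∑ j ∈ J, ‖c j‖ ^ 2 := by
  have hM' : (0 : ℝ) < M := by exact_mod_cast hM
  set f : ℤ → ℂ := fun n => ∑ j ∈ J, c j * e (n * α j) with hf
  -- expansion of the double sum
  have hexp : ∑ m ∈ range (2 * M), ∑ m' ∈ range (2 * M), ‖f ((m : ℤ) - m')‖ ^ 2
      ≤ ∑ i ∈ J, ∑ j ∈ J, ‖c i‖ * ‖c j‖ * ‖D (2 * M) (α i - α j)‖ ^ 2 := by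
    have h1 : ∀ m m' : ℕ, ((‖f ((m : ℤ) - m')‖ ^ 2 : ℝ) : ℂ)
        = ∑ i ∈ J, ∑ j ∈ J, c i * (starRingEnd ℂ) (c j) *
          (e (m * (α i - α j)) * (starRingEnd ℂ) (e (m' * (α i - α j)))) := by
      intro m m'
      push_cast
      rw [← Complex.mul_conj', hf]
      simp only
      rw [map_sum, sum_mul_sum]
      refine sum_congr rfl fun i _ => sum_congr rfl fun j _ => ?_
      rw [map_mul]
      have : e (((m : ℤ) - (m' : ℤ) : ℤ) * α i) * (starRingEnd ℂ) (e (((m : ℤ) - (m' : ℤ) : ℤ) * α j))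
          = e (m * (α i - α j)) * (starRingEnd ℂ) (e (m' * (α i - α j))) := by
        rw [e_mul_conj, e_mul_conj]
        congr 1
        push_cast
        ring
      rw [← this]
      ring
    have h2 : ((∑ m ∈ range (2 * M), ∑ m' ∈ range (2 * M), ‖f ((m : ℤ) - m')‖ ^ 2 : ℝ) : ℂ)
        = ∑ i ∈ J, ∑ j ∈ J, c i * (starRingEnd ℂ) (c j) *
          ((‖D (2 * M) (α i - α j)‖ ^ 2 : ℝ) : ℂ) := by
      rw [Complex.ofReal_sum]
      simp_rw [Complex.ofReal_sum, h1]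
      have h3 : ∀ i j : ι, ((‖D (2 * M) (α i - α j)‖ ^ 2 : ℝ) : ℂ)
          = ∑ m ∈ range (2 * M), ∑ m' ∈ range (2 * M),
            (e (m * (α i - α j)) * (starRingEnd ℂ) (e (m' * (α i - α j)))) := by
        intro i j
        push_cast
        rw [← Complex.mul_conj']
        unfold D
        rw [map_sum, sum_mul_sum]
      simp_rw [h3, mul_sum]
      -- reorder sums
      have e1 : ∀ m : ℕ, ∑ m' ∈ range (2 * M), ∑ i ∈ J, ∑ j ∈ J,
            c i * (starRingEnd ℂ) (c j) *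
              (e (m * (α i - α j)) * (starRingEnd ℂ) (e (m' * (α i - α j))))
          = ∑ i ∈ J, ∑ j ∈ J, ∑ m' ∈ range (2 * M),
            c i * (starRingEnd ℂ) (c j) *
              (e (m * (α i - α j)) * (starRingEnd ℂ) (e (m' * (α i - α j)))) := by
        intro m
        rw [sum_comm]
        refine sum_congr rfl fun i _ => ?_
        rw [sum_comm]
      simp_rw [e1]
      rw [sum_comm]
      refine sum_congr rfl fun i _ => ?_
      rw [sum_comm]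
    have h4 : (∑ m ∈ range (2 * M), ∑ m' ∈ range (2 * M), ‖f ((m : ℤ) - m')‖ ^ 2 : ℝ)
        = ‖((∑ m ∈ range (2 * M), ∑ m' ∈ range (2 * M), ‖f ((m : ℤ) - m')‖ ^ 2 : ℝ) : ℂ)‖ := by
      rw [Complex.norm_real, Real.norm_of_nonneg]
      exact sum_nonneg fun _ _ => sum_nonneg fun _ _ => by positivity
    rw [h4, h2]
    refine (norm_sum_le _ _).trans (sum_le_sum fun i _ => ?_)
    refine (norm_sum_le _ _).trans (sum_le_sum fun j _ => ?_)
    rw [norm_mul, norm_mul, RCLike.norm_conj, Complex.norm_real, Real.norm_of_nonneg (by positivity)]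
  -- lower bound of the double sum
  have hlow : (M : ℝ) * ∑ n ∈ Icc 1 N, ‖∑ j ∈ J, c j * e (n * α j)‖ ^ 2
      ≤ ∑ m ∈ range (2 * M), ∑ m' ∈ range (2 * M), ‖f ((m : ℤ) - m')‖ ^ 2 := by
    have h1 : (M : ℝ) * ∑ n ∈ Icc 1 N, ‖∑ j ∈ J, c j * e (n * α j)‖ ^ 2
        = ∑ p ∈ (Icc 1 N) ×ˢ (range M), ‖f (p.1 : ℤ)‖ ^ 2 := by
      rw [sum_product, mul_sum]
      refine sum_congr rfl fun n _ => ?_
      have h0 : ∑ y ∈ range M, ‖f (((n, y) : ℕ × ℕ).1 : ℤ)‖ ^ 2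
          = ∑ _y ∈ range M, ‖f (n : ℤ)‖ ^ 2 := rfl
      rw [h0, sum_const, card_range, nsmul_eq_mul, hf]
      simp
    rw [h1, ← sum_product']
    have h2 : ∑ p ∈ (Icc 1 N) ×ˢ (range M), ‖f (p.1 : ℤ)‖ ^ 2
        = ∑ p ∈ ((Icc 1 N) ×ˢ (range M)).image (fun p : ℕ × ℕ => (p.1 + p.2, p.2)),
          ‖f ((p.1 : ℤ) - p.2)‖ ^ 2 := by
      rw [sum_image]
      · refine sum_congr rfl fun p _ => ?_
        congr 3
        push_cast
        ring
      · rintro ⟨a, b⟩ _ ⟨a', b'⟩ _ h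
        simp only [Prod.mk.injEq] at h ⊢
        omega
    rw [h2]
    apply sum_le_sum_of_subset_of_nonneg
    · intro p hp
      obtain ⟨⟨a, b⟩, hq, rfl⟩ := mem_image.mp hp
      rw [mem_product, mem_Icc, mem_range] at hq
      rw [mem_product, mem_range, mem_range]
      simp only at hq ⊢
      omega
    · intro _ _ _
      positivity
  -- Schur test
  have hschur : ∑ i ∈ J, ∑ j ∈ J, ‖c i‖ * ‖c j‖ * ‖D (2 * M) (α i - α j)‖ ^ 2
      ≤ 5 * (M : ℝ) ^ 2 * ∑ j ∈ J, ‖c j‖ ^ 2 := by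
    have h1 : ∑ i ∈ J, ∑ j ∈ J, ‖c i‖ * ‖c j‖ * ‖D (2 * M) (α i - α j)‖ ^ 2
        ≤ ∑ i ∈ J, ∑ j ∈ J, (‖c i‖ ^ 2 / 2 * ‖D (2 * M) (α i - α j)‖ ^ 2
          + ‖c j‖ ^ 2 / 2 * ‖D (2 * M) (α i - α j)‖ ^ 2) := by
      refine sum_le_sum fun i _ => sum_le_sum fun j _ => ?_
      rw [← add_mul]
      apply mul_le_mul_of_nonneg_right _ (by positivity)
      nlinarith [sq_nonneg (‖c i‖ - ‖c j‖)]
    refine h1.trans ?_
    simp_rw [sum_add_distrib]
    have h2 : ∑ i ∈ J, ∑ j ∈ J, ‖c i‖ ^ 2 / 2 * ‖D (2 * M) (α i - α j)‖ ^ 2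
        ≤ 5 * (M : ℝ) ^ 2 / 2 * ∑ j ∈ J, ‖c j‖ ^ 2 := by
      rw [mul_sum]
      refine sum_le_sum fun i hi => ?_
      rw [← mul_sum]
      have := row_sum_le J α M hM hsp i hi
      nlinarith [sq_nonneg ‖c i‖]
    have h3 : ∑ i ∈ J, ∑ j ∈ J, ‖c j‖ ^ 2 / 2 * ‖D (2 * M) (α i - α j)‖ ^ 2
        = ∑ i ∈ J, ∑ j ∈ J, ‖c i‖ ^ 2 / 2 * ‖D (2 * M) (α i - α j)‖ ^ 2 := by
      rw [sum_comm]
      refine sum_congr rfl fun i _ => sum_congr rfl fun j _ => ?_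
      rw [← norm_D_neg, neg_sub]
    rw [h3]
    linarith
  have hfinal := hlow.trans (hexp.trans hschur)
  have : (M : ℝ) * ∑ n ∈ Icc 1 N, ‖∑ j ∈ J, c j * e (n * α j)‖ ^ 2
      ≤ M * (5 * M * ∑ j ∈ J, ‖c j‖ ^ 2) := by
    refine hfinal.trans (le_of_eq ?_)
    ring
  exact le_of_mul_le_mul_left this hM'

end Pool.Agent.H92.EH
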