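import Mathlib
import Pool.Agent.H92.EH.Dual

/-!
Farey fractions are well spaced, and the resulting mean value estimate for exponential sums
over primes.
-/

set_option autoImplicit false

namespace Pool.Agent.H92.EH

open Finset

/-- Reduced residues modulo `r`, as natural numbers less than `r`. -/
def red (r : ℕ) : Finset ℕ := (range r).filter (fun b => Nat.Coprime b r)

theorem mem_red {r b : ℕ} : b ∈ red r ↔ b < r ∧ Nat.Coprime b r := by
  simp [red]

theorem card_red (r : ℕ) : (red r).card = Nat.totient r := by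
  unfold red
  rw [Nat.totient_eq_card_coprime]
  congr 1
  ext b
  simp [Nat.coprime_comm]

theorem farey_spacing {r r' b b' : ℕ} (hr : 0 < r) (hr' : 0 < r') (hb : b ∈ red r)
    (hb' : b' ∈ red r') (hne : ¬ (r = r' ∧ b = b')) (m : ℤ) :
    (1 : ℝ) / (r * r') ≤ |(b : ℝ) / r - (b' : ℝ) / r' - m| := by
  have hr0 : (0 : ℝ) < r := by exact_mod_cast hr
  have hr0' : (0 : ℝ) < r' := by exact_mod_cast hr'
  rw [mem_red] at hb hb'
  set N : ℤ := (b : ℤ) * r' - b' * r - m * (r * r') with hN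
  have h1 : (b : ℝ) / r - (b' : ℝ) / r' - m = (N : ℝ) / (r * r') := by
    rw [hN]
    push_cast
    field_simp
  have hN0 : N ≠ 0 := by
    intro h0
    apply hne
    have h2 : (b : ℤ) * r' = r * (b' + m * r') := by rw [hN] at h0; linarith
    have h3 : (b' : ℤ) * r = r' * (b - m * r) := by rw [hN] at h0; linarith
    have d1 : (r : ℤ) ∣ b * r' := ⟨_, h2⟩
    have d2 : (r' : ℤ) ∣ b' * r := ⟨_, h3⟩
    have d1' : r ∣ b * r' := by exact_mod_cast d1
    have d2' : r' ∣ b' * r := by exact_mod_cast d2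
    have e1 : r ∣ r' := (Nat.Coprime.dvd_of_dvd_mul_left (Nat.coprime_comm.mp hb.2) d1')
    have e2 : r' ∣ r := (Nat.Coprime.dvd_of_dvd_mul_left (Nat.coprime_comm.mp hb'.2) d2')
    have e3 : r = r' := Nat.dvd_antisymm e1 e2
    refine ⟨e3, ?_⟩
    subst e3
    have h4 : (r : ℤ) * b = r * (b' + m * r) := by linarith
    have hrz : (r : ℤ) ≠ 0 := by exact_mod_cast hr.ne'
    have h5 : (b : ℤ) = b' + m * r := mul_left_cancel₀ hrz h4
    have h6 : (b : ℤ) < r := by exact_mod_cast hb.1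
    have h7 : (b' : ℤ) < r := by exact_mod_cast hb'.1
    have h8 : (0 : ℤ) ≤ b := by positivity
    have h9 : (0 : ℤ) ≤ b' := by positivity
    have h10 : m = 0 := by
      by_contra hm
      rcases lt_or_gt_of_ne hm with hm | hm
      · have : m * r ≤ -1 * r := mul_le_mul_of_nonneg_right (by omega) (by positivity)
        linarith
      · have : 1 * (r : ℤ) ≤ m * r := mul_le_mul_of_nonneg_right (by omega) (by positivity)
        linarith
    rw [h10] at h5
    simp at h5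
    exact h5
  rw [h1, abs_div, abs_of_pos (by positivity : (0 : ℝ) < r * r')]
  apply div_le_div_of_nonneg_right _ (by positivity)
  have : (1 : ℤ) ≤ |N| := Int.one_le_abs hN0
  exact_mod_cast this

/-- The exponential sum over primes up to `m`. -/
noncomputable def F (m : ℕ) (t : ℝ) : ℂ := ∑ p ∈ (Icc 1 m).filter Nat.Prime, e (p * t)

theorem F_add_int (m : ℕ) (t : ℝ) (k : ℤ) : F m (t + k) = F m t := by
  unfold F
  refine sum_congr rfl fun p _ => ?_
  rw [mul_add, e_add]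
  have : ((p : ℝ) * (k : ℝ)) = (((p : ℤ) * k : ℤ) : ℝ) := by push_cast; ring
  rw [this, e_int, mul_one]

theorem card_primes (m : ℕ) : ((Icc 1 m).filter Nat.Prime).card = Nat.primeCounting m := by
  rw [Nat.primeCounting, Nat.primeCounting', Nat.count_eq_card_filter_range]
  congr 1
  ext p
  simp only [mem_filter, mem_Icc, mem_range]
  constructor
  · rintro ⟨⟨_, h⟩, hp⟩
    exact ⟨by omega, hp⟩
  · rintro ⟨h, hp⟩
    exact ⟨⟨hp.one_lt.le, by omega⟩, hp⟩

/-- Mean value estimate over reduced fractions with denominators up to `R ≤ √x`. -/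
theorem farey_mean (x R m : ℕ) (hx : 0 < x) (hR : R ^ 2 ≤ x) (hm : m ≤ x) (W : ℕ → ℝ)
    (hW : ∀ r, 0 ≤ W r) :
    (∑ r ∈ Icc 1 R, W r * ∑ b ∈ red r, ‖F m ((b : ℝ) / r)‖) ^ 2
      ≤ Nat.primeCounting x * (5 * x * ∑ r ∈ Icc 1 R, W r ^ 2 * Nat.totient r) := by
  classical
  set J : Finset (Σ _ : ℕ, ℕ) := (Icc 1 R).sigma (fun r => red r) with hJ
  set α : (Σ _ : ℕ, ℕ) → ℝ := fun j => (j.2 : ℝ) / j.1 with hα
  have hx' : (0 : ℝ) < x := by exact_mod_cast hx
  have hsp : ∀ i ∈ J, ∀ j ∈ J, i ≠ j → ∀ k : ℤ, (1 : ℝ) / x ≤ |α i - α j - k| := by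
    rintro ⟨r, b⟩ hi ⟨r', b'⟩ hj hne k
    rw [hJ, mem_sigma, mem_Icc] at hi hj
    simp only at hi hj
    refine le_trans ?_ (farey_spacing (by omega) (by omega) hi.2 hj.2 ?_ k)
    · apply one_div_le_one_div_of_le
      · have h1 : (0 : ℝ) < r := by exact_mod_cast hi.1.1
        have h2 : (0 : ℝ) < r' := by exact_mod_cast hj.1.1
        positivity
      · have : r * r' ≤ x := by
          calc r * r' ≤ R * R := Nat.mul_le_mul hi.1.2 hj.1.2
            _ = R ^ 2 := by ring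
            _ ≤ x := hR
        exact_mod_cast this
    · rintro ⟨rfl, rfl⟩
      exact hne rfl
  set c : (Σ _ : ℕ, ℕ) → ℂ := fun j =>
    (W j.1 : ℂ) * ((starRingEnd ℂ) (F m (α j)) / ‖F m (α j)‖) with hc
  have hcF : ∀ j, c j * F m (α j) = ((W j.1 * ‖F m (α j)‖ : ℝ) : ℂ) := by
    intro j
    rw [hc]
    simp only
    by_cases h0 : F m (α j) = 0
    · simp [h0]
    · have h1 : (‖F m (α j)‖ : ℂ) ≠ 0 := by
        rw [Ne, Complex.ofReal_eq_zero, norm_eq_zero]
        exact h0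
      push_cast
      rw [mul_assoc, div_mul_eq_mul_div, mul_comm ((starRingEnd ℂ) (F m (α j))),
        Complex.mul_conj', pow_two, mul_div_assoc, div_self h1, mul_one]
  have hcn : ∀ j, ‖c j‖ ^ 2 ≤ W j.1 ^ 2 := by
    intro j
    rw [hc]
    simp only
    rw [norm_mul, norm_div, RCLike.norm_conj, Complex.norm_real, Complex.norm_real, norm_norm,
      mul_pow, Real.norm_eq_abs, sq_abs]
    have : (‖F m (α j)‖ / ‖F m (α j)‖) ^ 2 ≤ 1 := by
      by_cases h0 : ‖F m (α j)‖ = 0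
      · rw [h0]; norm_num
      · rw [div_self h0]; norm_num
    nlinarith [sq_nonneg (W j.1)]
  have hsum : ∑ r ∈ Icc 1 R, W r * ∑ b ∈ red r, ‖F m ((b : ℝ) / r)‖
      = ∑ j ∈ J, W j.1 * ‖F m (α j)‖ := by
    rw [hJ, sum_sigma]
    refine sum_congr rfl fun r _ => ?_
    rw [mul_sum]
  have hkey : ((∑ j ∈ J, W j.1 * ‖F m (α j)‖ : ℝ) : ℂ)
      = ∑ p ∈ (Icc 1 m).filter Nat.Prime, ∑ j ∈ J, c j * e (p * α j) := by
    rw [sum_comm, Complex.ofReal_sum]
    refine sum_congr rfl fun j _ => ?_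
    rw [← hcF, F, mul_sum]
  have hnn : 0 ≤ ∑ j ∈ J, W j.1 * ‖F m (α j)‖ :=
    sum_nonneg fun j _ => mul_nonneg (hW _) (norm_nonneg _)
  have hle : ∑ j ∈ J, W j.1 * ‖F m (α j)‖
      ≤ ∑ p ∈ (Icc 1 m).filter Nat.Prime, ‖∑ j ∈ J, c j * e (p * α j)‖ := by
    have : ∑ j ∈ J, W j.1 * ‖F m (α j)‖ = ‖((∑ j ∈ J, W j.1 * ‖F m (α j)‖ : ℝ) : ℂ)‖ := by
      rw [Complex.norm_real, Real.norm_of_nonneg hnn]
    rw [this, hkey]
    exact norm_sum_le _ _
  rw [hsum]
  calc (∑ j ∈ J, W j.1 * ‖F m (α j)‖) ^ 2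
      ≤ (∑ p ∈ (Icc 1 m).filter Nat.Prime, ‖∑ j ∈ J, c j * e (p * α j)‖) ^ 2 :=
        pow_le_pow_left₀ hnn hle 2
    _ ≤ ((Icc 1 m).filter Nat.Prime).card *
        ∑ p ∈ (Icc 1 m).filter Nat.Prime, ‖∑ j ∈ J, c j * e (p * α j)‖ ^ 2 :=
        sq_sum_le_card_mul_sum_sq
    _ ≤ Nat.primeCounting x * (5 * x * ∑ r ∈ Icc 1 R, W r ^ 2 * Nat.totient r) := by
        apply mul_le_mul
        · rw [card_primes]
          exact_mod_cast Nat.monotone_primeCounting hm
        · calc ∑ p ∈ (Icc 1 m).filter Nat.Prime, ‖∑ j ∈ J, c j * e (p * α j)‖ ^ 2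
              ≤ ∑ n ∈ Icc 1 m, ‖∑ j ∈ J, c j * e (n * α j)‖ ^ 2 :=
                sum_le_sum_of_subset_of_nonneg (filter_subset _ _) fun _ _ _ => by positivity
            _ ≤ 5 * x * ∑ j ∈ J, ‖c j‖ ^ 2 := dual_large_sieve J α c x m hm hx hsp
            _ ≤ 5 * x * ∑ r ∈ Icc 1 R, W r ^ 2 * Nat.totient r := by
                apply mul_le_mul_of_nonneg_left _ (by positivity)
                calc ∑ j ∈ J, ‖c j‖ ^ 2 ≤ ∑ j ∈ J, W j.1 ^ 2 := sum_le_sum fun j _ => hcn j
                  _ = ∑ r ∈ Icc 1 R, W r ^ 2 * Nat.totient r := by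
                    rw [hJ, sum_sigma]
                    refine sum_congr rfl fun r _ => ?_
                    show ∑ _s ∈ red r, W r ^ 2 = _
                    rw [sum_const, card_red, nsmul_eq_mul, mul_comm]
        · exact sum_nonneg fun _ _ => by positivity
        · positivity

end Pool.Agent.H92.EH
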